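import Mathlib

-- part Pool.Agent.Lib.MP_61b4dd_nt.Count
section

/-!
Counting lemmas: progressions in intervals, an exact sieve by small primes, Chebyshev-type bounds.
-/

namespace Pool.Agent.Lib.MP_61b4dd_nt

open Finset

/-- Number of members of a progression in an interval. -/
def cnt (X Y d r : ℕ) : ℕ := #{N ∈ Ioc X (X + Y) | N ≡ r [MOD d]}

theorem cnt_lt (X Y r : ℕ) {d : ℕ} (hd : 0 < d) : (cnt X Y d r : ℝ) < Y / d + 1 := by
  have h := Nat.Ioc_filter_modEq_card X (X + Y) hd r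
  have hd' : (0 : ℚ) < d := by exact_mod_cast hd
  have h1 := Int.floor_le ((((X + Y : ℕ) : ℚ) - r) / d)
  have h2 := Int.lt_floor_add_one (((X : ℚ) - r) / d)
  have h3 : (((X + Y : ℕ) : ℚ) - r) / d = ((X : ℚ) - r) / d + Y / d := by push_cast; ring
  have h4 : (0 : ℚ) ≤ Y / d := by positivity
  have h5 : (cnt X Y d r : ℚ) < Y / d + 1 := by
    have : ((cnt X Y d r : ℤ) : ℚ) = _ := congrArg (fun t : ℤ => (t : ℚ)) h
    push_cast at this h1 h3
    rw [this, max_lt_iff]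
    constructor <;> linarith
  have h6 := (Rat.cast_lt (K := ℝ)).2 h5
  push_cast at h6
  exact h6

theorem lt_cnt (X Y r : ℕ) {d : ℕ} (hd : 0 < d) : (Y : ℝ) / d - 1 < cnt X Y d r := by
  have h := Nat.Ioc_filter_modEq_card X (X + Y) hd r
  have hd' : (0 : ℚ) < d := by exact_mod_cast hd
  have h1 := Int.lt_floor_add_one ((((X + Y : ℕ) : ℚ) - r) / d)
  have h2 := Int.floor_le (((X : ℚ) - r) / d)
  have h3 : (((X + Y : ℕ) : ℚ) - r) / d = ((X : ℚ) - r) / d + Y / d := by push_cast; ring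
  have h5 : (Y : ℚ) / d - 1 < (cnt X Y d r : ℚ) := by
    have : ((cnt X Y d r : ℤ) : ℚ) = _ := congrArg (fun t : ℤ => (t : ℚ)) h
    push_cast at this h1 h3
    rw [this, lt_max_iff]
    left
    linarith
  have h6 := (Rat.cast_lt (K := ℝ)).2 h5
  push_cast at h6
  exact h6

/-- The sieving condition. -/
def Pw (W c : ℕ) : Prop := Nat.Coprime (c * (2 * c + 1)) W

instance (W : ℕ) : DecidablePred (Pw W) := fun c => by unfold Pw; infer_instance

theorem Pw_congr {W c r : ℕ} (h : c ≡ r [MOD W]) : Pw W c ↔ Pw W r := by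
  have : c * (2 * c + 1) ≡ r * (2 * r + 1) [MOD W] := h.mul ((h.mul_left 2).add_right 1)
  unfold Pw Nat.Coprime
  rw [this.gcd_eq]

/-- Number of admissible residues. -/
def rho (W : ℕ) : ℕ := #{r ∈ range W | Pw W r}

theorem rho_le (W : ℕ) : rho W ≤ W := (card_filter_le _ _).trans (by simp)

theorem sieve_low {W X Y : ℕ} (hW : 0 < W) {B : ℝ} (h : ∀ r, B ≤ cnt X Y W r) :
    rho W * B ≤ #{c ∈ Ioc X (X + Y) | Pw W c} := by
  have h1 : #{c ∈ Ioc X (X + Y) | Pw W c} = ∑ r ∈ range W with Pw W r,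
      #{c ∈ {c ∈ Ioc X (X + Y) | Pw W c} | c % W = r} := by
    refine card_eq_sum_card_fiberwise fun c hc => ?_
    simp only [coe_filter, mem_range, Set.mem_ofPred_eq] at hc ⊢
    exact ⟨Nat.mod_lt _ hW, (Pw_congr (Nat.mod_modEq c W)).2 hc.2⟩
  rw [h1, rho, ← nsmul_eq_mul, ← sum_const, Nat.cast_sum]
  refine sum_le_sum fun r hr => (h r).trans (Nat.cast_le.2 (card_le_card fun c hc => ?_))
  rw [mem_filter] at hr hc
  have : c % W = r := by rw [hc.2, Nat.mod_eq_of_lt (mem_range.1 hr.1)]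
  exact mem_filter.2 ⟨mem_filter.2 ⟨hc.1, (Pw_congr hc.2).2 hr.2⟩, this⟩

theorem sieve_up {W d X Y : ℕ} (hW : 0 < W) (hc : Nat.Coprime W d) (s : ℕ) {B : ℝ}
    (h : ∀ r, (cnt X Y (W * d) r : ℝ) ≤ B) :
    (#{c ∈ Ioc X (X + Y) | Pw W c ∧ c ≡ s [MOD d]} : ℝ) ≤ rho W * B := by
  have h1 : #{c ∈ Ioc X (X + Y) | Pw W c ∧ c ≡ s [MOD d]} = ∑ r ∈ range W with Pw W r,
      #{c ∈ {c ∈ Ioc X (X + Y) | Pw W c ∧ c ≡ s [MOD d]} | c % W = r} := by
    refine card_eq_sum_card_fiberwise fun c hc => ?_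
    simp only [coe_filter, mem_range, Set.mem_ofPred_eq] at hc ⊢
    exact ⟨Nat.mod_lt _ hW, (Pw_congr (Nat.mod_modEq c W)).2 hc.2.1⟩
  rw [h1, rho, ← nsmul_eq_mul, ← sum_const, Nat.cast_sum]
  refine sum_le_sum fun r _ => le_trans (Nat.cast_le.2 (card_le_card fun c hc' => ?_))
    (h (Nat.chineseRemainder hc r s))
  simp only [mem_filter] at hc' ⊢
  refine ⟨hc'.1.1, Nat.chineseRemainder_modEq_unique hc ?_ hc'.1.2.2⟩
  rw [← hc'.2]
  exact (Nat.mod_modEq c W).symm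

theorem modEq_half {p c : ℕ} (hp : Odd p) (h : p ∣ 2 * c + 1) : c ≡ p / 2 [MOD p] := by
  obtain ⟨k, rfl⟩ := hp
  have h1 : (2 * k + 1) / 2 = k := by omega
  rw [h1]
  have h2 : 2 * c + 1 ≡ 2 * k + 1 [MOD (2 * k + 1)] :=
    ((Nat.modEq_zero_iff_dvd).2 h).trans ((Nat.modEq_zero_iff_dvd).2 dvd_rfl).symm
  exact Nat.ModEq.cancel_left_of_coprime (by simp) (Nat.ModEq.add_right_cancel' 1 h2)

/-- Members of the sifted set that an odd prime removes. -/
theorem sieve_removed {W p X Y : ℕ} (hW : 0 < W) (hc : Nat.Coprime W p) (hp : Odd p) {B : ℝ}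
    (h : ∀ r, (cnt X Y (W * p) r : ℝ) ≤ B) :
    (#{c ∈ Ioc X (X + Y) | Pw W c ∧ (p ∣ c ∨ p ∣ 2 * c + 1)} : ℝ) ≤ 2 * (rho W * B) := by
  have h1 := sieve_up (X := X) (Y := Y) hW hc 0 h
  have h2 := sieve_up (X := X) (Y := Y) hW hc (p / 2) h
  have h3 : #{c ∈ Ioc X (X + Y) | Pw W c ∧ (p ∣ c ∨ p ∣ 2 * c + 1)} ≤
      #{c ∈ Ioc X (X + Y) | Pw W c ∧ c ≡ 0 [MOD p]} +
        #{c ∈ Ioc X (X + Y) | Pw W c ∧ c ≡ p / 2 [MOD p]} := by
    refine le_trans (card_le_card fun c hc' => ?_) (card_union_le _ _)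
    simp only [mem_filter, mem_union] at hc' ⊢
    rcases hc'.2.2 with h | h
    · exact Or.inl ⟨hc'.1, hc'.2.1, (Nat.modEq_zero_iff_dvd).2 h⟩
    · exact Or.inr ⟨hc'.1, hc'.2.1, modEq_half hp h⟩
  have h4 := (Nat.cast_le (α := ℝ)).2 h3
  push_cast at h4
  linarith

theorem card_period {W : ℕ} (hW : 0 < W) : #{c ∈ Ioc 0 (0 + W) | Pw W c} ≤ rho W := by
  have := sieve_up (W := W) (d := 1) (X := 0) (Y := W) hW (by simp) 0 (B := 1) fun r => by
    have h := cnt_lt 0 W r (d := W * 1) (by simpa using hW)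
    have hW' : (W : ℝ) ≠ 0 := by positivity
    rw [Nat.cast_mul, Nat.cast_one, mul_one (W : ℝ), div_self hW'] at h
    have : cnt 0 W (W * 1) r < 2 := by exact_mod_cast (show (cnt 0 W (W * 1) r : ℝ) < 2 by linarith)
    exact_mod_cast Nat.lt_succ_iff.1 this
  simp only [Nat.modEq_one, and_true, mul_one] at this
  exact_mod_cast this

theorem rho_mul {W p : ℕ} (hW : 0 < W) (hc : Nat.Coprime W p) (hp : p.Prime) (ho : Odd p) :
    (rho W : ℝ) * (p - 2) ≤ rho (W * p) := by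
  have hW' : (W : ℝ) ≠ 0 := by positivity
  have hp' : (p : ℝ) ≠ 0 := by exact_mod_cast hp.ne_zero
  have hWp : 0 < W * p := Nat.mul_pos hW hp.pos
  have h1 := sieve_low (X := 0) (Y := W * p) hW (B := p) fun r => by
    have h := lt_cnt 0 (W * p) r hW
    rw [Nat.cast_mul, mul_div_cancel_left₀ _ hW'] at h
    have : p < cnt 0 (W * p) W r + 1 := by
      exact_mod_cast (show (p : ℝ) < cnt 0 (W * p) W r + 1 by linarith)
    exact_mod_cast Nat.lt_succ_iff.1 this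
  have h2 := sieve_removed (X := 0) (Y := W * p) hW hc ho (B := 1) fun r => by
    have h := cnt_lt 0 (W * p) r hWp
    rw [div_self (by positivity)] at h
    have : cnt 0 (W * p) (W * p) r < 2 := by
      exact_mod_cast (show (cnt 0 (W * p) (W * p) r : ℝ) < 2 by linarith)
    exact_mod_cast Nat.lt_succ_iff.1 this
  have h3 : #{c ∈ Ioc 0 (0 + W * p) | Pw W c} ≤ #{c ∈ Ioc 0 (0 + W * p) | Pw (W * p) c} +
      #{c ∈ Ioc 0 (0 + W * p) | Pw W c ∧ (p ∣ c ∨ p ∣ 2 * c + 1)} := by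
    refine le_trans (card_le_card fun c hc' => ?_) (card_union_le _ _)
    simp only [mem_filter, mem_union] at hc' ⊢
    by_cases h : p ∣ c ∨ p ∣ 2 * c + 1
    · exact Or.inr ⟨hc'.1, hc'.2, h⟩
    · refine Or.inl ⟨hc'.1, Nat.Coprime.mul_right hc'.2 ?_⟩
      rw [Nat.coprime_comm, hp.coprime_iff_not_dvd, hp.dvd_mul]
      exact h
  have h4 := (Nat.cast_le (α := ℝ)).2 (h3.trans (Nat.add_le_add_right (card_period hWp) _))
  push_cast at h4
  linarith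

theorem exp_le_factor {p : ℝ} (hp : 3 ≤ p) : Real.exp (-(6 * p⁻¹)) * p ≤ p - 2 := by
  have h0 : 0 < p := by linarith
  have h1 : 6 * p⁻¹ + 1 ≤ Real.exp (6 * p⁻¹) := Real.add_one_le_exp _
  have h2 : 0 < Real.exp (6 * p⁻¹) := Real.exp_pos _
  rw [Real.exp_neg, inv_mul_le_iff₀ h2]
  have h3 : p⁻¹ * p = 1 := inv_mul_cancel₀ h0.ne'
  have h4 : 0 < p⁻¹ := by positivity
  have h5 : p ≤ (6 * p⁻¹ + 1) * (p - 2) := by nlinarith
  exact h5.trans (mul_le_mul_of_nonneg_right h1 (by linarith))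

theorem coprime_two_mul_prod {S : Finset ℕ} (hS : ∀ q ∈ S, q.Prime) {p : ℕ} (hp : p.Prime)
    (h2 : 2 < p) (hpS : p ∉ S) : Nat.Coprime (2 * ∏ q ∈ S, q) p := by
  refine Nat.Coprime.mul_left ((Nat.coprime_primes Nat.prime_two hp).2 h2.ne) ?_
  refine Nat.Coprime.prod_left fun q hq => (Nat.coprime_primes (hS q hq) hp).2 ?_
  rintro rfl
  exact hpS hq

theorem rho_low (S : Finset ℕ) (hS : ∀ p ∈ S, p.Prime ∧ 2 < p) :
    Real.exp (-(6 * ∑ p ∈ S, (p : ℝ)⁻¹)) * (∏ p ∈ S, p : ℕ) ≤ rho (2 * ∏ p ∈ S, p) := by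
  induction S using Finset.induction_on with
  | empty =>
    have : rho 2 = 1 := by decide
    simp [this]
  | insert p S hp ih =>
    have h1 := ih fun q hq => hS q (mem_insert_of_mem hq)
    obtain ⟨hp1, hp2⟩ := hS p (mem_insert_self _ _)
    have hS' : ∀ q ∈ S, q.Prime := fun q hq => (hS q (mem_insert_of_mem hq)).1
    have hpos : 0 < ∏ q ∈ S, q := prod_pos fun q hq => (hS' q hq).pos
    have h2 := rho_mul (by omega) (coprime_two_mul_prod hS' hp1 hp2 hp) hp1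
      (hp1.odd_of_ne_two hp2.ne')
    have h3 : (3 : ℝ) ≤ p := by exact_mod_cast hp2
    rw [sum_insert hp, prod_insert hp, mul_add, neg_add, Real.exp_add, mul_comm p, ← mul_assoc 2,
      Nat.cast_mul]
    refine le_trans ?_ h2
    calc _ = (Real.exp (-(6 * ∑ p ∈ S, (p : ℝ)⁻¹)) * (∏ p ∈ S, p : ℕ)) *
          (Real.exp (-(6 * (p : ℝ)⁻¹)) * p) := by ring
      _ ≤ _ := mul_le_mul h1 (exp_le_factor h3) (by positivity) (by positivity)

/-- Primes in a half-open interval. -/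
def pr (u v : ℕ) : Finset ℕ := {p ∈ Ioc u v | p.Prime}

theorem mem_pr {u v p : ℕ} : p ∈ pr u v ↔ (u < p ∧ p ≤ v) ∧ p.Prime := by
  simp [pr]

/-- Chebyshev-type count. -/
theorem prime_count (j T : ℕ) : j * #(pr (2 ^ j) T) ≤ 2 * T := by
  have h1 : (2 ^ j) ^ #(pr (2 ^ j) T) ≤ ∏ p ∈ pr (2 ^ j) T, p :=
    pow_card_le_prod _ _ _ fun p hp => (mem_pr.1 hp).1.1.le
  have h2 : ∏ p ∈ pr (2 ^ j) T, p ≤ primorial T := by
    refine Nat.le_of_dvd (primorial_pos _) (prod_dvd_prod_of_subset _ _ _ fun p hp => ?_)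
    simp only [mem_filter, mem_pr, mem_range] at hp ⊢
    exact ⟨by omega, hp.2⟩
  have h3 := (h1.trans h2).trans (primorial_le_four_pow T)
  rw [← pow_mul, show 4 = 2 ^ 2 by norm_num, ← pow_mul] at h3
  exact (Nat.pow_le_pow_iff_right (by norm_num)).1 h3

theorem dyadic {j : ℕ} (hj : 0 < j) :
    ∑ p ∈ pr (2 ^ j) (2 ^ (j + 1)), (p : ℝ)⁻¹ ≤ 4 / j := by
  have h1 := (Nat.cast_le (α := ℝ)).2 (prime_count j (2 ^ (j + 1)))
  have h2 : ∑ p ∈ pr (2 ^ j) (2 ^ (j + 1)), (p : ℝ)⁻¹ ≤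
      #(pr (2 ^ j) (2 ^ (j + 1))) • ((2 : ℝ) ^ j)⁻¹ := by
    refine sum_le_card_nsmul _ _ _ fun p hp => inv_anti₀ (by positivity) ?_
    exact_mod_cast (mem_pr.1 hp).1.1.le
  have hj' : (0 : ℝ) < j := by exact_mod_cast hj
  refine h2.trans ?_
  rw [nsmul_eq_mul, le_div_iff₀ hj', mul_assoc, mul_comm _ (j : ℝ), ← mul_assoc,
    mul_inv_le_iff₀ (by positivity)]
  push_cast at h1
  rw [pow_succ (2 : ℝ)] at h1
  linarith

theorem dyadic_sum {a : ℕ} (ha : 0 < a) (t : ℕ) :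
    ∑ p ∈ pr (2 ^ a) (2 ^ (a + t)), (p : ℝ)⁻¹ ≤
      ∑ i ∈ range t, 4 / ((a + i : ℕ) : ℝ) := by
  induction t with
  | zero => simp [pr]
  | succ t ih =>
    have h1 : 2 ^ a ≤ 2 ^ (a + t) := Nat.pow_le_pow_right (by norm_num) (by omega)
    have h2 : 2 ^ (a + t) ≤ 2 ^ (a + t + 1) := Nat.pow_le_pow_right (by norm_num) (by omega)
    rw [sum_range_succ, ← add_assoc, pr, sum_filter, ← sum_Ioc_consecutive _ h1 h2, ← sum_filter,
      ← sum_filter]
    exact add_le_add ih (dyadic (by omega))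

theorem harm_le (U : ℕ) : ∑ k ∈ Ioc 0 U, (k : ℝ)⁻¹ ≤ 1 + Real.log U := by
  have h := harmonic_le_one_add_log U
  have h1 : ∑ k ∈ Ioc 0 U, (k : ℝ)⁻¹ = harmonic U := by
    rw [harmonic_eq_sum_Icc]
    push_cast
    rfl
  rwa [h1]

theorem recip_primes (t : ℕ) :
    ∑ p ∈ pr 2 (2 ^ (1 + t)), (p : ℝ)⁻¹ ≤ 4 * (1 + Real.log t) := by
  have h1 := dyadic_sum one_pos t
  rw [pow_one] at h1
  refine h1.trans (le_trans (le_of_eq ?_) (mul_le_mul_of_nonneg_left (harm_le t) (by norm_num)))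
  rw [mul_sum, ← Finset.Ico_add_one_add_one_eq_Ioc, sum_Ico_eq_sum_range]
  simp [div_eq_mul_inv]

theorem recip_primes_mid {a : ℕ} (ha : 0 < a) (t : ℕ) :
    ∑ p ∈ pr (2 ^ a) (2 ^ (a + t)), (p : ℝ)⁻¹ ≤ 4 * t / a := by
  refine (dyadic_sum ha t).trans ?_
  have ha' : (0 : ℝ) < a := by exact_mod_cast ha
  refine (sum_le_card_nsmul _ _ (4 / (a : ℝ)) fun i _ => ?_).trans (le_of_eq ?_)
  · exact div_le_div_of_nonneg_left (by norm_num) ha' (by exact_mod_cast Nat.le_add_right a i)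
  · simp
    ring

end Pool.Agent.Lib.MP_61b4dd_nt
end

-- part Pool.Agent.Lib.MP_61b4dd_nt.Bad
section

/-!
Integers in a short interval that fail to be cyclic because of large primes.
-/

namespace Pool.Agent.Lib.MP_61b4dd_nt

open Finset

/-- `N` has a prime factor `p > z` whose square divides `N` or which divides `q - 1` for another
prime factor `q`. -/
def Bad (z N : ℕ) : Prop :=
  ∃ p, p.Prime ∧ z < p ∧ (p * p ∣ N ∨ ∃ q, q.Prime ∧ p ∣ q - 1 ∧ p * q ∣ N)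

theorem coprime_totient {z N : ℕ} (hN : N ≠ 0) (h : ∀ p, p.Prime → p ∣ N → z < p)
    (hb : ¬ Bad z N) : Nat.Coprime N N.totient := by
  refine Nat.coprime_of_dvd fun p hp h1 h2 => hb ⟨p, hp, h p hp h1, ?_⟩
  rw [Nat.totient_eq_prod_factorization hN, Finsupp.prod,
    Prime.dvd_finsetProd_iff hp.prime] at h2
  obtain ⟨q, hq, h3⟩ := h2
  have hq' : q.Prime := Nat.prime_of_mem_primeFactors (by simpa using hq)
  have hqN : q ∣ N := Nat.dvd_of_mem_primeFactors (by simpa using hq)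
  rcases (Nat.Prime.dvd_mul hp).1 h3 with h4 | h4
  · obtain rfl : p = q := (Nat.prime_dvd_prime_iff_eq hp hq').1 (hp.dvd_of_dvd_pow h4)
    left
    have h5 : N.factorization p - 1 ≠ 0 := by
      intro h0
      rw [h0, pow_zero] at h4
      exact hp.one_lt.ne' (Nat.dvd_one.1 h4)
    rw [← sq]
    exact (hp.pow_dvd_iff_le_factorization hN).2 (by omega)
  · right
    refine ⟨q, hq', h4, Nat.Coprime.mul_dvd_of_dvd_of_dvd ((Nat.coprime_primes hp hq').2 ?_) h1 hqN⟩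
    rintro rfl
    have := Nat.le_of_dvd (by have := hp.two_le; omega) h4
    have := hp.two_le
    omega

theorem cover {z U X Y : ℕ} (hz : 0 < z) (hzU : z ≤ U) (Q : Finset (ℕ × ℕ))
    (hQ : Q ⊆ Ioc z U ×ˢ Ioc 0 U) (d r : ℕ × ℕ → ℕ) (hd : ∀ π ∈ Q, π.1 ^ 2 * π.2 ≤ d π) :
    (#(Q.biUnion fun π => {N ∈ Ioc X (X + Y) | N ≡ r π [MOD d π]}) : ℝ) ≤
      Y * (1 + Real.log U) / z + #Q := by
  have h0 : ∀ π ∈ Q, 0 < π.1 ∧ 0 < π.2 := fun π hπ => by
    have := hQ hπ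
    simp only [mem_product, mem_Ioc] at this
    omega
  have h1 : (#(Q.biUnion fun π => {N ∈ Ioc X (X + Y) | N ≡ r π [MOD d π]}) : ℝ) ≤
      ∑ π ∈ Q, ((Y : ℝ) * ((((π.1 : ℝ) ^ 2)⁻¹) * (π.2 : ℝ)⁻¹) + 1) := by
    refine le_trans (Nat.cast_le.2 card_biUnion_le) ?_
    rw [Nat.cast_sum]
    refine sum_le_sum fun π hπ => ?_
    obtain ⟨h1, h2⟩ := h0 π hπ
    have h3 : 0 < π.1 ^ 2 * π.2 := by positivity
    refine (cnt_lt X Y (r π) (h3.trans_le (hd π hπ))).le.trans (add_le_add ?_ le_rfl)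
    rw [← mul_inv, ← div_eq_mul_inv]
    refine div_le_div_of_nonneg_left (by positivity) (by positivity) ?_
    exact_mod_cast hd π hπ
  rw [sum_add_distrib, sum_const, nsmul_eq_mul, mul_one, ← mul_sum] at h1
  refine h1.trans (add_le_add ?_ le_rfl)
  rw [mul_div_assoc]
  refine mul_le_mul_of_nonneg_left ?_ (by positivity)
  refine (sum_le_sum_of_subset_of_nonneg hQ fun _ _ _ => by positivity).trans ?_
  rw [sum_product]
  dsimp only
  rw [← sum_mul_sum, div_eq_inv_mul]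
  refine mul_le_mul ?_ (harm_le U) (by positivity) (by positivity)
  refine (sum_Ioc_inv_sq_le_sub hz.ne' hzU).trans (sub_le_self _ (by positivity))

theorem omega_le {v : ℕ} (hv : v ≠ 0) (K : ℕ) :
    (#v.primeFactors : ℝ) ≤ K + #v.divisors / 2 ^ K := by
  have h1 : 2 ^ #v.primeFactors ≤ #v.divisors := by
    rw [Nat.card_divisors hv]
    refine pow_card_le_prod _ _ _ fun p hp => ?_
    have := (Nat.Prime.dvd_iff_one_le_factorization (Nat.prime_of_mem_primeFactors hp) hv).1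
      (Nat.dvd_of_mem_primeFactors hp)
    omega
  rcases le_total #v.primeFactors K with h | h
  · exact le_add_of_le_of_nonneg (by exact_mod_cast h) (by positivity)
  · obtain ⟨w, hw⟩ := Nat.exists_eq_add_of_le h
    rw [hw] at h1 ⊢
    push_cast
    refine add_le_add le_rfl ?_
    rw [le_div_iff₀ (by positivity)]
    have h2 : w * 2 ^ K ≤ 2 ^ (K + w) := by
      rw [pow_add, mul_comm]
      exact Nat.mul_le_mul_left _ Nat.lt_two_pow_self.le
    exact_mod_cast h2.trans h1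

theorem sum_divisors_le (T : ℕ) :
    ∑ v ∈ Ioc 0 T, (#v.divisors : ℝ) ≤ T * (1 + Real.log T) := by
  have h1 : ∑ v ∈ Ioc 0 T, #v.divisors = ∑ d ∈ Ioc 0 T, T / d := by
    have : ∀ v ∈ Ioc 0 T, #v.divisors = ∑ d ∈ Ioc 0 T, if d ∣ v then 1 else 0 := by
      intro v hv
      rw [← card_filter]
      congr 1
      ext d
      rw [mem_Ioc] at hv
      simp only [Nat.mem_divisors, mem_filter, mem_Ioc]
      constructor
      · rintro ⟨h, -⟩
        exact ⟨⟨Nat.pos_of_dvd_of_pos h hv.1, (Nat.le_of_dvd hv.1 h).trans hv.2⟩, h⟩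
      · rintro ⟨-, h⟩
        exact ⟨h, hv.1.ne'⟩
    rw [sum_congr rfl this, sum_comm]
    refine sum_congr rfl fun d _ => ?_
    rw [← card_filter, Nat.Ioc_filter_dvd_card_eq_div]
  rw [← Nat.cast_sum, h1, Nat.cast_sum]
  refine le_trans (sum_le_sum fun d _ => Nat.cast_div_le) ?_
  simp only [div_eq_mul_inv]
  rw [← mul_sum]
  exact mul_le_mul_of_nonneg_left (harm_le T) (by positivity)

theorem card_pairs_prime (z U T K : ℕ) :
    (#{π ∈ Ioc z U ×ˢ Ioc 0 U | π.1.Prime ∧ (π.2 * π.1 + 1).Prime ∧ π.2 * π.1 + 1 ≤ T} : ℝ) ≤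
      K * #(pr 0 T) + T * (1 + Real.log T) / 2 ^ K := by
  have h1 : #{π ∈ Ioc z U ×ˢ Ioc 0 U | π.1.Prime ∧ (π.2 * π.1 + 1).Prime ∧ π.2 * π.1 + 1 ≤ T} ≤
      ∑ q ∈ pr 0 T, #(q - 1).primeFactors := by
    rw [← card_sigma]
    refine card_le_card_of_injOn (fun π => ⟨π.2 * π.1 + 1, π.1⟩) (fun π hπ => ?_) ?_
    · simp only [coe_filter, mem_product, mem_Ioc, Set.mem_ofPred_eq] at hπ
      simp only [coe_sigma, Set.mem_sigma_iff, mem_coe, mem_pr, Nat.add_sub_cancel,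
        Nat.mem_primeFactors]
      exact ⟨⟨⟨by omega, hπ.2.2.2⟩, hπ.2.2.1⟩, hπ.2.1, Dvd.intro_left _ rfl,
        Nat.mul_ne_zero hπ.1.2.1.ne' hπ.2.1.ne_zero⟩
    · rintro ⟨p, k⟩ hπ ⟨p', k'⟩ _ h
      simp only [coe_filter, mem_product, mem_Ioc, Set.mem_ofPred_eq] at hπ
      simp only [Sigma.mk.injEq, heq_eq_eq, Nat.add_right_cancel_iff] at h
      obtain ⟨h, rfl⟩ := h
      rw [Nat.eq_of_mul_eq_mul_right hπ.2.1.pos h]
  refine le_trans (Nat.cast_le.2 h1) ?_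
  rw [Nat.cast_sum]
  refine le_trans (sum_le_sum fun q hq => omega_le (v := q - 1) ?_ K) ?_
  · have := (mem_pr.1 hq).2.two_le
    omega
  rw [sum_add_distrib, sum_const, nsmul_eq_mul, mul_comm, ← sum_div]
  refine add_le_add le_rfl (div_le_div_of_nonneg_right (le_trans ?_ (sum_divisors_le T))
    (by positivity))
  rw [← sum_image (s := pr 0 T) (g := fun q => q - 1) (f := fun v => (#v.divisors : ℝ))]
  · refine sum_le_sum_of_subset_of_nonneg (fun v hv => ?_) fun _ _ _ => by positivity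
    obtain ⟨q, hq, rfl⟩ := mem_image.1 hv
    have := (mem_pr.1 hq).2.two_le
    have := (mem_pr.1 hq).1.2
    rw [mem_Ioc]
    omega
  · intro q hq q' hq' h
    have := (mem_pr.1 hq).1.1
    have := (mem_pr.1 hq').1.1
    simp only at h
    omega

theorem card_pairs_small {z M T : ℕ} (hT : 0 < T) :
    (#{π ∈ Ioc z M ×ˢ Ioc 0 M | π.1.Prime ∧ π.1 * π.2 * T ≤ M} : ℝ) ≤
      M / T * ∑ p ∈ pr z M, (p : ℝ)⁻¹ := by
  have h1 : #{π ∈ Ioc z M ×ˢ Ioc 0 M | π.1.Prime ∧ π.1 * π.2 * T ≤ M} ≤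
      ∑ p ∈ pr z M, #(Ioc 0 (M / (T * p))) := by
    rw [← card_sigma]
    refine card_le_card_of_injOn (fun π => ⟨π.1, π.2⟩) (fun π hπ => ?_) ?_
    · simp only [coe_filter, mem_product, mem_Ioc, Set.mem_ofPred_eq] at hπ
      simp only [coe_sigma, Set.mem_sigma_iff, mem_coe, mem_pr, mem_Ioc]
      refine ⟨⟨hπ.1.1, hπ.2.1⟩, hπ.1.2.1, ?_⟩
      rw [Nat.le_div_iff_mul_le (Nat.mul_pos hT hπ.2.1.pos)]
      calc π.2 * (T * π.1) = π.1 * π.2 * T := by ring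
        _ ≤ M := hπ.2.2
    · rintro ⟨p, k⟩ _ ⟨p', k'⟩ _ h
      simp only [Sigma.mk.injEq, heq_eq_eq] at h
      exact Prod.ext h.1 h.2
  refine le_trans (Nat.cast_le.2 h1) ?_
  rw [Nat.cast_sum, mul_sum]
  refine sum_le_sum fun p _ => ?_
  rw [Nat.card_Ioc, Nat.sub_zero]
  refine Nat.cast_div_le.trans (le_of_eq ?_)
  push_cast
  rw [← div_div, div_eq_mul_inv _ (p : ℝ)]

open Classical in
theorem card_bad {z T M X Y : ℕ} (K : ℕ) (hz : 0 < z) (hzM : z ≤ M) (hT : 0 < T) (hTM : T ≤ M)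
    (hMT : M ≤ T * T) (hXY : X + Y ≤ M) :
    (#{N ∈ Ioc X (X + Y) | Bad z N} : ℝ) ≤ 3 * (Y * (1 + Real.log M) / z) +
      (K + 1) * #(pr 0 T) + T * (1 + Real.log T) / 2 ^ K + M / T * ∑ p ∈ pr z M, (p : ℝ)⁻¹ := by
  have hM : 0 < M := hT.trans_le hTM
  set Q2 := {π ∈ Ioc z M ×ˢ Ioc 0 M | π.1.Prime ∧ π.1 ≤ T ∧ π.2 = 1} with hQ2
  set Q3 := {π ∈ Ioc z M ×ˢ Ioc 0 M | π.1.Prime ∧ (π.2 * π.1 + 1).Prime ∧ π.2 * π.1 + 1 ≤ T}
    with hQ3
  set Q4 := {π ∈ Ioc z M ×ˢ Ioc 0 M | π.1.Prime ∧ π.1 * π.2 * T ≤ M} with hQ4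
  have c2 := cover (X := X) (Y := Y) hz hzM Q2 (filter_subset _ _) (fun π => π.1 * π.1)
    (fun _ => 0) fun π hπ => by rw [(mem_filter.1 hπ).2.2.2, mul_one, sq]
  have c3 := cover (X := X) (Y := Y) hz hzM Q3 (filter_subset _ _)
    (fun π => π.1 * (π.2 * π.1 + 1)) (fun _ => 0) fun π _ => by nlinarith [Nat.zero_le π.1]
  have c4 := cover (X := X) (Y := Y) hz hzM Q4 (filter_subset _ _) (fun π => π.1 ^ 2 * π.2)
    (fun π => π.1 * π.2) fun π _ => le_rfl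
  have e2 : (#Q2 : ℝ) ≤ #(pr 0 T) := by
    refine Nat.cast_le.2 (card_le_card_of_injOn (fun π => π.1) (fun π hπ => ?_) ?_)
    · obtain ⟨-, h1, h2, -⟩ := mem_filter.1 hπ
      exact mem_pr.2 ⟨⟨h1.pos, h2⟩, h1⟩
    · intro π hπ π' hπ' h
      exact Prod.ext h ((mem_filter.1 hπ).2.2.2.trans (mem_filter.1 hπ').2.2.2.symm)
  have e3 := card_pairs_prime z M T K
  have e4 := card_pairs_small (z := z) (M := M) hT
  have hsub : {N ∈ Ioc X (X + Y) | Bad z N} ⊆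
      ((Q2.biUnion fun π => {N ∈ Ioc X (X + Y) | N ≡ 0 [MOD π.1 * π.1]}) ∪
      (Q3.biUnion fun π => {N ∈ Ioc X (X + Y) | N ≡ 0 [MOD π.1 * (π.2 * π.1 + 1)]})) ∪
      (Q4.biUnion fun π => {N ∈ Ioc X (X + Y) | N ≡ π.1 * π.2 [MOD π.1 ^ 2 * π.2]}) := by
    intro N hN
    obtain ⟨hI, p, hp, hzp, h⟩ := mem_filter.1 hN
    have hN0 : 0 < N := by have := (mem_Ioc.1 hI).1; omega
    have hNM : N ≤ M := (mem_Ioc.1 hI).2.trans hXY
    simp only [mem_union, mem_biUnion]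
    rcases h with h | ⟨q, hq, ⟨k, hk⟩, h⟩
    · have h1 : p ≤ T := Nat.mul_self_le_mul_self_iff.1 ((Nat.le_of_dvd hN0 h).trans (hNM.trans hMT))
      refine Or.inl (Or.inl ⟨(p, 1), ?_, mem_filter.2 ⟨hI, (Nat.modEq_zero_iff_dvd).2 h⟩⟩)
      simp only [hQ2, mem_filter, mem_product, mem_Ioc]
      exact ⟨⟨⟨hzp, h1.trans hTM⟩, one_pos, hM⟩, hp, h1, trivial⟩
    · have hq2 := hq.two_le
      have hq' : q = k * p + 1 := by rw [mul_comm]; omega
      have hk0 : 0 < k := Nat.pos_of_ne_zero (by rintro rfl; omega)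
      by_cases hqT : q ≤ T
      · subst hq'
        refine Or.inl (Or.inr ⟨(p, k), ?_, mem_filter.2 ⟨hI, (Nat.modEq_zero_iff_dvd).2 h⟩⟩)
        simp only [hQ3, mem_filter, mem_product, mem_Ioc]
        have := Nat.le_mul_of_pos_left p hk0
        have := Nat.le_mul_of_pos_right k hp.pos
        exact ⟨⟨⟨hzp, by omega⟩, hk0, by omega⟩, hp, hq, hqT⟩
      · obtain ⟨m, hm⟩ := h
        have hm0 : 0 < m := Nat.pos_of_ne_zero (by rintro rfl; omega)
        have h1 : p * m * T ≤ M := by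
          refine le_trans ?_ hNM
          rw [hm, mul_right_comm p q]
          exact Nat.mul_le_mul_left _ (by omega)
        have h2 : p * m ≤ M := (Nat.le_mul_of_pos_right _ hT).trans h1
        refine Or.inr ⟨(p, m), ?_, mem_filter.2 ⟨hI, ?_⟩⟩
        · simp only [hQ4, mem_filter, mem_product, mem_Ioc]
          exact ⟨⟨⟨hzp, (Nat.le_mul_of_pos_right _ hm0).trans h2⟩, hm0,
            (Nat.le_mul_of_pos_left _ hp.pos).trans h2⟩, hp, h1⟩
        · have : N = p * m + p ^ 2 * m * k := by rw [hm, hq']; ring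
          rw [this]
          exact ((Nat.modEq_iff_dvd' (Nat.le_add_right _ _)).2 (by simp)).symm
  have h5 := (Nat.cast_le (α := ℝ)).2 ((card_le_card hsub).trans ((card_union_le _ _).trans
    (Nat.add_le_add_right (card_union_le _ _) _)))
  push_cast at h5
  linarith

end Pool.Agent.Lib.MP_61b4dd_nt
end

-- part Pool.Agent.Lib.MP_61b4dd_nt.Main
section

/-!
Lower bound for the number of Sophie Germain cyclic numbers between consecutive squares.
-/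

namespace Pool.Agent.Lib.MP_61b4dd_nt

open Finset

/-- The Sophie Germain cyclic numbers in an interval. -/
def good (X Y : ℕ) : Finset ℕ :=
  {c ∈ Ioc X (X + Y) | Nat.Coprime c c.totient ∧ Nat.Coprime (2 * c + 1) (2 * c + 1).totient}

open Classical in
theorem sifted_le (y z X Y : ℕ) :
    #{c ∈ Ioc X (X + Y) | Pw (2 * ∏ p ∈ pr 2 y, p) c} ≤ #(good X Y) +
      ∑ p ∈ pr y z, #{c ∈ Ioc X (X + Y) | Pw (2 * ∏ p ∈ pr 2 y, p) c ∧ (p ∣ c ∨ p ∣ 2 * c + 1)} +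
      #{N ∈ Ioc X (X + Y) | Bad z N} + #{N ∈ Ioc (2 * X) (2 * X + (2 * Y + 1)) | Bad z N} := by
  have h1 : #{c ∈ Ioc X (X + Y) | Bad z (2 * c + 1)} ≤
      #{N ∈ Ioc (2 * X) (2 * X + (2 * Y + 1)) | Bad z N} := by
    refine card_le_card_of_injOn (fun c => 2 * c + 1) (fun c hc => ?_) fun c _ c' _ h => ?_
    · simp only [coe_filter, mem_Ioc, Set.mem_ofPred_eq] at hc ⊢
      exact ⟨by omega, hc.2⟩
    · simp only at h
      omega
  refine le_trans ?_ (Nat.add_le_add_left h1 _)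
  refine le_trans ?_ (Nat.add_le_add_right (Nat.add_le_add_right
    (Nat.add_le_add_left card_biUnion_le _) _) _)
  refine le_trans (card_le_card fun c hc => ?_) ((card_union_le _ _).trans (Nat.add_le_add_right
    ((card_union_le _ _).trans (Nat.add_le_add_right (card_union_le _ _) _)) _))
  obtain ⟨hI, hP⟩ := mem_filter.1 hc
  by_contra hn
  simp only [mem_union, mem_biUnion, mem_filter, not_or, not_exists, not_and, good] at hn
  obtain ⟨⟨⟨h2, h3⟩, h4⟩, h5⟩ := hn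
  have key : ∀ p, p.Prime → p ∣ c * (2 * c + 1) → z < p := by
    intro p hp hd
    by_contra hz
    have h6 : ¬ p ∣ 2 * ∏ p ∈ pr 2 y, p := fun h =>
      hp.one_lt.ne' (Nat.eq_one_of_dvd_coprimes hP hd h)
    have h7 : y < p := by
      by_contra hy
      rcases hp.two_le.eq_or_lt with rfl | h
      · exact h6 (Dvd.intro _ rfl)
      · exact h6 (Dvd.dvd.mul_left (dvd_prod_of_mem _ (mem_pr.2 ⟨⟨h, by omega⟩, hp⟩)) _)
    have := h3 p (mem_pr.2 ⟨⟨h7, by omega⟩, hp⟩) hI hP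
    rcases (Nat.Prime.dvd_mul hp).1 hd with h | h
    · exact this.1 h
    · exact this.2 h
  have hc0 : c ≠ 0 := by have := (mem_Ioc.1 hI).1; omega
  exact h2 hI (coprime_totient hc0 (fun p hp h => key p hp (h.mul_right _)) (h4 hI))
    (coprime_totient (by omega) (fun p hp h => key p hp (h.mul_left _)) (h5 hI))

theorem prod_pr_le (y : ℕ) : ∏ p ∈ pr 2 y, p ≤ 4 ^ y := by
  refine le_trans (Nat.le_of_dvd (primorial_pos _) (prod_dvd_prod_of_subset _ _ _ fun p hp => ?_))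
    (primorial_le_four_pow y)
  simp only [mem_filter, mem_pr, mem_range] at hp ⊢
  exact ⟨by omega, hp.2⟩

open Classical in
/-- The sieve part: what is left after removing the primes up to `z`. -/
theorem good_ge {y z : ℕ} (hy : 2 ≤ y) (X Y : ℕ) (hs : ∑ p ∈ pr y z, (p : ℝ)⁻¹ ≤ 1 / 4) :
    Real.exp (-(6 * ∑ p ∈ pr 2 y, (p : ℝ)⁻¹)) * Y / 4 ≤ #(good X Y) + 2 * 4 ^ y * (1 + 2 * z) +
      #{N ∈ Ioc X (X + Y) | Bad z N} + #{N ∈ Ioc (2 * X) (2 * X + (2 * Y + 1)) | Bad z N} := by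
  have h1 := (Nat.cast_le (α := ℝ)).2 (sifted_le y z X Y)
  have hS : ∀ p ∈ pr 2 y, p.Prime ∧ 2 < p := fun p hp => ⟨(mem_pr.1 hp).2, (mem_pr.1 hp).1.1⟩
  have h2 := rho_low _ hS
  have hP : 0 < ∏ p ∈ pr 2 y, p := prod_pos fun p hp => (hS p hp).1.pos
  have h3 := (Nat.cast_le (α := ℝ)).2 (prod_pr_le y)
  have hc : ∀ p ∈ pr y z, Nat.Coprime (2 * ∏ p ∈ pr 2 y, p) p := fun p hp => by
    obtain ⟨⟨h, -⟩, h'⟩ := mem_pr.1 hp
    refine coprime_two_mul_prod (fun q hq => (hS q hq).1) h' (by omega) fun h'' => ?_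
    have := (mem_pr.1 h'').1.2
    omega
  generalize ∏ p ∈ pr 2 y, p = P at *
  have hW : 0 < 2 * P := by omega
  have hP' : (0 : ℝ) < P := by exact_mod_cast hP
  have h4 := sieve_low (X := X) (Y := Y) hW fun r => (lt_cnt X Y r hW).le
  have h5 := (Nat.cast_le (α := ℝ)).2 (rho_le (2 * P))
  have h6 : ∑ p ∈ pr y z,
      (#{c ∈ Ioc X (X + Y) | Pw (2 * P) c ∧ (p ∣ c ∨ p ∣ 2 * c + 1)} : ℝ) ≤
      ∑ p ∈ pr y z, (2 * (rho (2 * P) * (Y / (2 * P))) * (p : ℝ)⁻¹ + 2 * rho (2 * P)) := by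
    refine sum_le_sum fun p hp => ?_
    obtain ⟨⟨h, -⟩, h'⟩ := mem_pr.1 hp
    refine (sieve_removed hW (hc p hp) (h'.odd_of_ne_two (by omega))
      fun r => (cnt_lt X Y r (Nat.mul_pos hW h'.pos)).le).trans (le_of_eq ?_)
    push_cast
    ring
  rw [sum_add_distrib, ← mul_sum, sum_const, nsmul_eq_mul] at h6
  have h7 : (#(pr y z) : ℝ) ≤ z := by
    refine Nat.cast_le.2 ((card_filter_le _ _).trans ?_)
    simp
  push_cast at h1 h3 h4 h5
  have hρ0 : (0 : ℝ) ≤ rho (2 * P) := by positivity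
  generalize ((rho (2 * P) : ℕ) : ℝ) = ρ at *
  have h8 : Real.exp (-(6 * ∑ p ∈ pr 2 y, (p : ℝ)⁻¹)) * Y / 2 ≤ ρ * (Y / (2 * P)) := by
    rw [← le_div_iff₀ hP'] at h2
    calc _ ≤ ρ / P * Y / 2 := by gcongr
      _ = _ := by field_simp
  have h9 : 2 * (ρ * (Y / (2 * P))) * ∑ p ∈ pr y z, (p : ℝ)⁻¹ ≤ 2 * (ρ * (Y / (2 * P))) * (1 / 4) :=
    mul_le_mul_of_nonneg_left hs (by positivity)
  have h10 : (#(pr y z) : ℝ) * (2 * ρ) ≤ z * (2 * (2 * 4 ^ y)) :=
    mul_le_mul h7 (by linarith) (by positivity) (by positivity)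
  rw [mul_sub] at h4
  linarith

theorem log_le_of_le_pow {M k : ℕ} (hM : 0 < M) (h : M ≤ 2 ^ k) : Real.log M ≤ 0.7 * k := by
  have h1 : Real.log M ≤ Real.log (2 ^ k) :=
    Real.log_le_log (by exact_mod_cast hM) (by exact_mod_cast h)
  rw [Real.log_pow] at h1
  have := Real.log_two_lt_d9
  have h2 : (0 : ℝ) ≤ k := by positivity
  nlinarith

theorem card_pr_le {j : ℕ} (hj : 0 < j) (T : ℕ) : (#(pr 0 T) : ℝ) ≤ 2 ^ j + 2 * T / j := by
  have h1 : #(pr 0 T) ≤ #(Ioc 0 (2 ^ j)) + #(pr (2 ^ j) T) := by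
    refine le_trans (card_le_card fun p hp => ?_) (card_union_le _ _)
    simp only [mem_union, mem_pr, mem_Ioc] at hp ⊢
    by_cases h : p ≤ 2 ^ j
    · exact Or.inl ⟨hp.1.1, h⟩
    · exact Or.inr ⟨⟨by omega, hp.1.2⟩, hp.2⟩
  rw [Nat.card_Ioc, Nat.sub_zero] at h1
  have h2 := (Nat.cast_le (α := ℝ)).2 (prime_count j T)
  have h3 := (Nat.cast_le (α := ℝ)).2 h1
  push_cast at h2 h3
  refine h3.trans (add_le_add le_rfl ?_)
  rw [le_div_iff₀ (by exact_mod_cast hj)]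
  linarith

open Classical in
/-- The count of integers spoiled by large primes, with the parameters chosen. -/
theorem bad_le {a t n X Y : ℕ} (ht : 20 ≤ t) (hta : 16 * t ≤ a) (h1 : 2 ^ (8 * 2 ^ a) ≤ n)
    (h2 : n ≤ 2 ^ (16 * 2 ^ a)) (hY : Y ≤ 5 * n) (hXY : X + Y ≤ 8 * n ^ 2) :
    (#{N ∈ Ioc X (X + Y) | Bad (2 ^ (a + t)) N} : ℝ) ≤ 50 * a * n / 2 ^ t := by
  have hy : a < 2 ^ a := Nat.lt_two_pow_self
  have hn : 0 < n := lt_of_lt_of_le (by positivity) h1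
  have le_n : ∀ k, k ≤ 8 * 2 ^ a → 2 ^ k ≤ n := fun k hk =>
    (Nat.pow_le_pow_right (by norm_num) hk).trans h1
  have hnM : n * n ≤ 8 * n ^ 2 := by nlinarith
  have hTM : n * 2 ^ (8 * t) ≤ 8 * n ^ 2 :=
    (Nat.mul_le_mul_left _ (le_n _ (by omega))).trans hnM
  have hM2 : 8 * n ^ 2 ≤ 2 ^ (1 + (32 * 2 ^ a + 2)) := by
    calc 8 * n ^ 2 ≤ 8 * (2 ^ (16 * 2 ^ a)) ^ 2 := by gcongr
      _ = _ := by rw [← pow_mul]; ring
  have h3 := card_bad (z := 2 ^ (a + t)) (T := n * 2 ^ (8 * t)) (M := 8 * n ^ 2) (X := X) (Y := Y)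
    (2 * a) (by positivity)
    ((le_n _ (by omega)).trans ((Nat.le_mul_self n).trans hnM)) (by positivity) hTM
    (by
      have : 4 ≤ 2 ^ (8 * t) := Nat.pow_le_pow_right (n := 2) (i := 2) (by norm_num) (by omega)
      calc 8 * n ^ 2 ≤ n * 4 * (n * 4) := by nlinarith
        _ ≤ _ := by gcongr) hXY
  have h4 := card_pr_le (j := 2 ^ a) (by positivity) (n * 2 ^ (8 * t))
  have h5 := log_le_of_le_pow (by positivity) hM2
  have h6 := log_le_of_le_pow (by positivity) (hTM.trans hM2)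
  have h7 : ∑ p ∈ pr (2 ^ (a + t)) (8 * n ^ 2), (p : ℝ)⁻¹ ≤ 4 * a := by
    refine le_trans (sum_le_sum_of_subset_of_nonneg (fun p hp => ?_) fun _ _ _ => by positivity)
      ((recip_primes (32 * 2 ^ a + 2)).trans ?_)
    · rw [mem_pr] at hp ⊢
      have : 2 ^ 1 ≤ 2 ^ (a + t) := Nat.pow_le_pow_right (by norm_num) (by omega)
      exact ⟨⟨by omega, hp.1.2.trans hM2⟩, hp.2⟩
    · have := log_le_of_le_pow (M := 32 * 2 ^ a + 2) (k := a + 6) (by positivity)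
        (by rw [pow_add]; omega)
      have h : (320 : ℝ) ≤ a := by exact_mod_cast (by omega : 320 ≤ a)
      rw [Nat.cast_add a] at this
      push_cast at this ⊢
      linarith
  have h8 : 2 ^ 2 ^ a * 2 ^ t ≤ n := by rw [← pow_add]; exact le_n _ (by omega)
  have h9 : 2 ^ (8 * t) * 2 ^ t ≤ 2 ^ a := by
    rw [← pow_add]; exact Nat.pow_le_pow_right (by norm_num) (by omega)
  have h10 : 2 ^ t ≤ 2 ^ (8 * t) := Nat.pow_le_pow_right (by norm_num) (by omega)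
  have h8' := (Nat.cast_le (α := ℝ)).2 h8
  have h9' := (Nat.cast_le (α := ℝ)).2 h9
  have h10' := (Nat.cast_le (α := ℝ)).2 h10
  have hY' := (Nat.cast_le (α := ℝ)).2 hY
  have ha : (320 : ℝ) ≤ a := by exact_mod_cast (by omega : 320 ≤ a)
  have hn' : (0 : ℝ) < n := by exact_mod_cast hn
  have hy' : (a : ℝ) ≤ 2 ^ a := by exact_mod_cast hy.le
  push_cast at h3 h4 h5 h6 h8' h9' h10' hY'
  rw [pow_add (2 : ℝ), pow_mul' (2 : ℝ) 2 a] at h3
  generalize ((2 : ℝ) ^ 2 ^ a) = v at *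
  generalize ((2 : ℝ) ^ (8 * t)) = w at *
  have hu : (0 : ℝ) < 2 ^ t := by positivity
  generalize ((2 : ℝ) ^ t) = u at *
  generalize ((2 : ℝ) ^ a) = y at *
  have hw : 0 < w := by linarith
  have hy0 : 0 < y := by linarith
  have hL : 0 ≤ Real.log (8 * (n : ℝ) ^ 2) := by
    have : (1 : ℝ) ≤ n := by exact_mod_cast hn
    exact Real.log_nonneg (by nlinarith)
  have b1 : Y * (1 + Real.log (8 * (n : ℝ) ^ 2)) / (y * u) ≤ 120 * (n / u) := by
    calc _ ≤ 5 * n * (24 * y) / (y * u) := by gcongr; linarith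
      _ = _ := by field_simp; ring
  have b2 : (#(pr 0 (n * 2 ^ (8 * t))) : ℝ) ≤ 3 * (n / u) := by
    have c1 : v ≤ n / u := by rwa [le_div_iff₀ hu]
    have c2 : n * w / y ≤ n / u := by
      rw [div_le_div_iff₀ hy0 hu, mul_assoc]
      exact mul_le_mul_of_nonneg_left h9' hn'.le
    rw [mul_div_assoc] at h4
    linarith
  have b3 : n * w * (1 + Real.log (n * w)) / y ^ 2 ≤ 24 * (n / u) := by
    calc _ ≤ n * w * (24 * y) / y ^ 2 := by gcongr; linarith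
      _ = 24 * (n * w / y) := by field_simp
      _ ≤ _ := by
        refine mul_le_mul_of_nonneg_left ?_ (by norm_num)
        rw [div_le_div_iff₀ hy0 hu, mul_assoc]
        exact mul_le_mul_of_nonneg_left h9' hn'.le
  have b4 : 8 * n ^ 2 / (n * w) * ∑ p ∈ pr (2 ^ (a + t)) (8 * n ^ 2), (p : ℝ)⁻¹ ≤
      32 * a * (n / u) := by
    calc _ ≤ 8 * n ^ 2 / (n * u) * (4 * (a : ℝ)) := by gcongr
      _ = _ := by field_simp; ring
  have b5 : (2 * (a : ℝ) + 1) * #(pr 0 (n * 2 ^ (8 * t))) ≤ (2 * a + 1) * (3 * (n / u)) := by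
    gcongr
  have b6 : 0 < n / u := by positivity
  rw [mul_div_assoc]
  nlinarith

theorem pow_dom {t : ℕ} (ht : 500 ≤ t) : 2 ^ 50 * (16 * (t + 1)) ^ 25 ≤ 2 ^ t := by
  have h1 : ∀ w, 20 ≤ w → 1600 * (w + 1) ≤ 2 ^ w := fun w hw => by
    induction w, hw using Nat.le_induction with
    | base => norm_num
    | succ w _ ih => rw [pow_succ]; omega
  have h2 := h1 (t / 25) (by omega)
  calc 2 ^ 50 * (16 * (t + 1)) ^ 25 = (4 * (16 * (t + 1))) ^ 25 := by rw [mul_pow 4]; norm_num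
    _ ≤ (2 ^ (t / 25)) ^ 25 := Nat.pow_le_pow_left (by omega) _
    _ ≤ _ := by rw [← pow_mul]; exact Nat.pow_le_pow_right (by norm_num) (by omega)

theorem good_param {a n : ℕ} (ha : 8000 ≤ a) (h1 : 2 ^ (8 * 2 ^ a) ≤ n)
    (h2 : n ≤ 2 ^ (16 * 2 ^ a)) :
    2 + (n : ℝ) / (2 ^ 37 * a ^ 24) ≤ #(good (n ^ 2) (2 * n)) := by
  obtain ⟨t, ht⟩ : ∃ t, t = a / 16 := ⟨_, rfl⟩
  have hy : a < 2 ^ a := Nat.lt_two_pow_self
  have hn : 0 < n := lt_of_lt_of_le (by positivity) h1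
  have ha' : (8000 : ℝ) ≤ a := by exact_mod_cast ha
  have h3 := good_ge (y := 2 ^ a) (z := 2 ^ (a + t)) (by omega) (n ^ 2) (2 * n) (by
    refine (recip_primes_mid (by omega) t).trans ?_
    have : (16 * t : ℝ) ≤ a := by exact_mod_cast (by omega : 16 * t ≤ a)
    rw [div_le_iff₀ (by linarith)]
    linarith)
  have h4 := bad_le (a := a) (t := t) (X := n ^ 2) (Y := 2 * n) (by omega) (by omega) h1 h2
    (by omega) (by nlinarith)
  have h5 := bad_le (a := a) (t := t) (X := 2 * n ^ 2) (Y := 2 * (2 * n) + 1) (by omega) (by omega)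
    h1 h2 (by omega) (by nlinarith)
  have h6 : (2 * 4 ^ 2 ^ a * (1 + 2 * 2 ^ (a + t)) + 2) * 2 ^ t ≤ n := by
    have c1 : 1 + 2 * 2 ^ (a + t) ≤ 2 ^ (a + t + 2) := by
      have : 0 < 2 ^ (a + t) := by positivity
      rw [pow_add _ _ 2]; omega
    have c2 : 0 < 4 ^ 2 ^ a * 2 ^ (a + t + 2) := by positivity
    calc _ ≤ (2 * 4 ^ 2 ^ a * 2 ^ (a + t + 2) + 2) * 2 ^ t := by gcongr
      _ ≤ (4 * (4 ^ 2 ^ a * 2 ^ (a + t + 2))) * 2 ^ t := by
        refine Nat.mul_le_mul_right _ ?_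
        rw [mul_assoc]; omega
      _ = 2 ^ (2 + (2 * 2 ^ a + (a + t + 2)) + t) := by
        rw [pow_add _ _ t, pow_add _ 2, pow_add _ (2 * 2 ^ a), pow_mul]; norm_num
      _ ≤ 2 ^ (8 * 2 ^ a) := Nat.pow_le_pow_right (by norm_num) (by omega)
      _ ≤ n := h1
  have h7 : 2 ^ 50 * a ^ 25 ≤ 2 ^ t :=
    le_trans (Nat.mul_le_mul_left _ (Nat.pow_le_pow_left (by omega) _)) (pow_dom (by omega))
  have h8 : ((2 : ℝ) ^ 35 * a ^ 24)⁻¹ ≤ Real.exp (-(6 * ∑ p ∈ pr 2 (2 ^ a), (p : ℝ)⁻¹)) := by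
    have c1 := recip_primes (a - 1)
    rw [show 1 + (a - 1) = a by omega] at c1
    have c2 : Real.log ((a - 1 : ℕ) : ℝ) ≤ Real.log a :=
      Real.log_le_log (by exact_mod_cast (by omega : 0 < a - 1)) (by exact_mod_cast Nat.sub_le a 1)
    rw [Real.exp_neg]
    refine inv_anti₀ (Real.exp_pos _) ?_
    rw [← Real.le_log_iff_exp_le (by positivity), Real.log_mul (by positivity) (by positivity),
      Real.log_pow, Real.log_pow]
    have := Real.log_two_gt_d9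
    push_cast
    linarith
  have h6' := (Nat.cast_le (α := ℝ)).2 h6
  have h7' := (Nat.cast_le (α := ℝ)).2 h7
  have hn' : (0 : ℝ) < n := by exact_mod_cast hn
  push_cast at h3 h6' h7'
  have hu : (0 : ℝ) < 2 ^ t := by positivity
  rw [← le_div_iff₀ hu] at h6'
  have h9 : (n : ℝ) / 2 ^ t ≤ a * n / 2 ^ t := by
    gcongr; exact le_mul_of_one_le_left hn'.le (by linarith)
  have h10 : 101 * (a * n / 2 ^ t) ≤ (n : ℝ) / (2 ^ 37 * a ^ 24) := by
    calc _ ≤ 2 ^ 13 * (a * n / (2 ^ 50 * (a : ℝ) ^ 25)) := by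
          gcongr
          · norm_num
          · linarith
      _ = _ := by field_simp
  have h11 : 2 * ((n : ℝ) / (2 ^ 37 * a ^ 24)) ≤
      Real.exp (-(6 * ∑ p ∈ pr 2 (2 ^ a), (p : ℝ)⁻¹)) * (2 * n) / 4 := by
    calc _ = ((2 : ℝ) ^ 35 * a ^ 24)⁻¹ * (2 * n) / 4 := by field_simp; norm_num
      _ ≤ _ := by gcongr
  rw [mul_assoc, mul_div_assoc] at h4 h5
  linarith

theorem main (n : ℕ) (hn : 6000 ≤ Real.log (Real.log n)) :
    2 + (n : ℝ) / Real.log (Real.log n) ^ 30 ≤ #(good (n ^ 2) (2 * n)) := by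
  have hn1 : 2 ≤ n := by
    by_contra h
    obtain rfl | rfl : n = 0 ∨ n = 1 := by omega
    all_goals norm_num at hn
  obtain ⟨l, hl⟩ : ∃ l, l = Nat.log 2 n := ⟨_, rfl⟩
  obtain ⟨b, hb⟩ : ∃ b, b = Nat.log 2 l := ⟨_, rfl⟩
  have hl0 : 0 < l := hl ▸ Nat.log_pos (by norm_num) hn1
  have h1 : 2 ^ l ≤ n := hl ▸ Nat.pow_log_le_self 2 (by omega)
  have h2 : n < 2 ^ (l + 1) := hl ▸ Nat.lt_pow_succ_log_self (by norm_num) n
  have h3 : 2 ^ b ≤ l := hb ▸ Nat.pow_log_le_self 2 hl0.ne'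
  have h4 : l < 2 ^ (b + 1) := hb ▸ Nat.lt_pow_succ_log_self (by norm_num) l
  have h5 : n ≤ 2 ^ 2 ^ (b + 1) := h2.le.trans (Nat.pow_le_pow_right (by norm_num) h4)
  have hlog : 0 < Real.log n := Real.log_pos (by exact_mod_cast hn1)
  have h6 : Real.log (Real.log n) ≤ 0.7 * (b + 1 : ℕ) := by
    refine le_trans (Real.log_le_log hlog ?_) (log_le_of_le_pow (M := 2 ^ (b + 1)) (by positivity) le_rfl)
    have := log_le_of_le_pow (by omega) h5
    have h0 : (0 : ℝ) ≤ ((2 ^ (b + 1) : ℕ) : ℝ) := by positivity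
    linarith
  have h7 : 8003 ≤ b := by
    have : (8003 : ℝ) ≤ b := by push_cast at h6; linarith
    exact_mod_cast this
  obtain ⟨a, rfl⟩ : ∃ a, b = a + 3 := ⟨b - 3, by omega⟩
  have h8 : 2 ^ (8 * 2 ^ a) ≤ n :=
    (Nat.pow_le_pow_right (by norm_num) (by rw [pow_add] at h3; omega)).trans h1
  refine le_trans (add_le_add le_rfl ?_) (good_param (a := a) (by omega) h8
    (by rwa [show 2 ^ (a + 3 + 1) = 16 * 2 ^ a by ring] at h5))
  have ha : (8000 : ℝ) ≤ a := by exact_mod_cast (by omega : 8000 ≤ a)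
  have hl2 := Real.log_two_gt_d9
  have h9 : (2 : ℝ) ^ a ≤ Real.log n := by
    have c1 : Real.log (2 ^ (8 * 2 ^ a)) ≤ Real.log n :=
      Real.log_le_log (by positivity) (by exact_mod_cast h8)
    rw [Real.log_pow] at c1
    push_cast at c1
    have : (0 : ℝ) < 2 ^ a := by positivity
    have c2 := mul_le_mul_of_nonneg_left hl2.le this.le
    linarith
  have h10 : (a : ℝ) / 2 ≤ Real.log (Real.log n) := by
    have c1 := Real.log_le_log (by positivity) h9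
    rw [Real.log_pow] at c1
    have c2 := mul_le_mul_of_nonneg_left hl2.le (Nat.cast_nonneg (α := ℝ) a)
    linarith
  refine div_le_div_of_nonneg_left (by positivity) (by positivity) ?_
  calc (2 : ℝ) ^ 37 * a ^ 24 ≤ (8000 : ℝ) ^ 6 / 2 ^ 30 * a ^ 24 := by gcongr; norm_num
    _ ≤ (a : ℝ) ^ 6 / 2 ^ 30 * a ^ 24 := by gcongr
    _ = (a / 2) ^ 30 := by ring
    _ ≤ _ := by gcongr

end Pool.Agent.Lib.MP_61b4dd_nt
end
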